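import Pool.Agent.W705.JR.Tup

/-!
# Random braid words are distinguished from the unknot by Vassiliev invariants of linear order

Diagrams (starting library `Pool.Agent.H891R2.Jones.Diagram`): `Diagram P` (oriented link diagrams with
marked points `P`, planar or not), `Outer m` (the part of an oriented diagram outside a box through which
`m` strands run, with arbitrary directions), `Outer.push` (draws one crossing in the box) and `Outer.close`
(fills the rest of the box with vertical strands).

`Pool.Agent.W639.RB.Defs`: `Letter m = Bool × Fin (m - 1)` (the letters `σ_i^{±1}` of the braid group on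
`m` strands), `diagram O w` (the diagram obtained by drawing the word `w : Fin n → Letter m` in the box of
`O`), `perm w` (the permutation of `w`); `Pool.Agent.W639.RB.Knots`: `IsKnot w` (the permutation of `w`
has a single cycle, i.e. the closure of the braid word `w` is a knot).  `Pool.Agent.W705.JR.Defs`:
`plat k b t` (the outside of the box for the plat closure of braids on `2 k` strands, the directions of the
`k` arcs at the bottom and of the `k` arcs at the top being given by `b` and `t`).
`Pool.Agent.W705.JR.Vas`: `dia O w` is the diagram `diagram O w` as an element of `Dia`.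

Vassiliev invariants (starting library `Pool.Agent.H832R3.VJ.Defs`): `Dia` (an oriented diagram with
the finite set of its marked points), `Separated d X Y` (some integer valued Vassiliev invariant of
oriented links of order at most `d` has different values on `X` and `Y`), `unknot`.
-/

set_option autoImplicit false

namespace Pool.Agent.Results.MP_5f6b43_gt.RandomBraidWords

open Finset LaurentPolynomial Pool.Agent.H891R2.Jones Pool.Agent.W639.RB Pool.Agent.W705.JR
  Pool.Agent.H832R3.VJ

theorem nsep {m n : ℕ} (O : Outer m) (w : Fin n → Letter m) (d : ℕ)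
    (hd : 2 * (O.crossings.length + 2 * Nat.card O.P + (2 * m + 1) * n + 2) < d) 
    (h : ¬ Separated d (dia O w) unknot) : (diagram O w).fPoly = unknot.D.fPoly := by
  by_contra hne
  apply h
  refine sep_mono ?_ (sep_of_ne (dia O w) unknot hne)
  have h1 : size unknot = 2 := by
    unfold size unknot
    simp
  rw [size_dia, h1]
  omega

open Classical in
/-- Let `m ≥ 3`, and draw words of length `n` in the letters `σ_i^{±1}` of the braid group on `m` strands
in the box of an oriented link diagram, the outside `O` of the box having `c` crossings and `p` marked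
points.  (If all strands of the box have the same direction and the outside with `m` vertical strands is
closed, then all these diagrams are closed.)  Let `d > 2 (c + 2 p + (2m+1) n + 2)`.

* For every probability vector `q > 0` on the letters there are `C` and `r < 1` such that for all `O` and
  `n` the diagram with a random word of length `n` (independent letters with the probabilities `q`) is
  not separated from the unknot by Vassiliev invariants of order at most `d` with probability at most
  `C r^n`.
* There are `C`, `r < 1` and `l0` such that for all `O` and all `n ≥ l0` with `n ≡ m - 1` modulo 2 the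
  proportion of the words whose diagram is not separated from the unknot by Vassiliev invariants of
  order at most `d`, among all words of length `n` whose closure is a knot, is at most `C r^n`.

The same holds for plat closures of words on `2 k ≥ 4` strands: at most `C r^n (4k-2)^n` of the words of
length `n` give a diagram which for some directions is not separated from the unknot by Vassiliev
invariants of order at most `d`, if `d > 2 (8 k + (4k+1) n + 2)`. -/
theorem result : 
    (∀ m : ℕ, 3 ≤ m → 
      (∀ (O : Outer m), (∀ j, O.up j = true) → O.close.IsClosed → 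
        ∀ (n : ℕ) (w : Fin n → Letter m), (diagram O w).IsClosed) ∧
      (∀ q : Letter m → ℝ, (∀ x, 0 < q x) → ∑ x, q x = 1 → ∃ C r : ℝ, 0 < r ∧ r < 1 ∧ 
        ∀ (O : Outer m) (n d : ℕ), 2 * (O.crossings.length + 2 * Nat.card O.P + (2 * m + 1) * n + 2) < d → 
          ∑ w : Fin n → Letter m, (if ¬ Separated d (dia O w) unknot then ∏ j, q (w j) else 0) ≤ 
            C * r ^ n) ∧
      (∃ (C r : ℝ) (l0 : ℕ), 0 < r ∧ r < 1 ∧ 
        ∀ (O : Outer m) (n d : ℕ), 2 * (O.crossings.length + 2 * Nat.card O.P + (2 * m + 1) * n + 2) < d → 
          l0 ≤ n → n % 2 = (m - 1) % 2 → 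
          ((univ.filter (fun w : Fin n → Letter m => IsKnot w ∧ ¬ Separated d (dia O w) unknot)).card : ℝ) ≤ 
            C * r ^ n * (univ.filter (fun w : Fin n → Letter m => IsKnot w)).card)) ∧
    (∀ k : ℕ, 2 ≤ k → ∃ C r : ℝ, 0 < r ∧ r < 1 ∧ ∀ (n d : ℕ), 2 * (8 * k + (4 * k + 1) * n + 2) < d → 
      ((univ.filter (fun w : Fin n → Letter (2 * k) => 
          ∃ b t : Fin k → Bool, ¬ Separated d (dia (plat k b t) w) unknot)).card : ℝ) ≤ 
        C * r ^ n * ((2 * (2 * k - 1) : ℕ) : ℝ) ^ n) := by
  refine ⟨fun m hm => ⟨fun O hO hc _ w => draw_closed (toL w) O (toL_mem w) hO hc, 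
    fun q hq hs => ?_, ?_⟩, fun k hk => ?_⟩
  · obtain ⟨C, r, h0, h1, h⟩ := weights hm q hq hs
    refine ⟨C, r, h0, h1, fun O n d hd => ?_⟩
    refine le_trans ?_ (h O (ev 3 le_rfl unknot.D.fPoly) n)
    unfold prob
    refine Finset.sum_le_sum fun w _ => ?_
    by_cases hw : Separated d (dia O w) unknot
    · rw [if_neg (not_not.2 hw)]
      split_ifs
      · exact Finset.prod_nonneg fun j _ => (hq _).le
      · exact le_rfl
    · have h2 : (draw O (toL w)).close.fPoly = unknot.D.fPoly := nsep O w d hd hw
      rw [if_pos hw, if_pos (by rw [h2])]
  · obtain ⟨C, r, hC, h0, h1, h⟩ := count hm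
    obtain ⟨C', l0, h'⟩ := knots' hm (by linarith) h0 h
    refine ⟨C', r, l0, h0, h1, fun O n d hd hn hpar => ?_⟩
    exact le_trans (cardle _ _ _ _ id Function.injective_id fun w hw => ⟨hw.1, nsep O w d hd hw.2⟩) 
      (h' O unknot.D.fPoly n hn hpar)
  · obtain ⟨C, r, hC, h0, h1, h⟩ := count (m := 2 * k) (by omega)
    refine ⟨4 ^ k * C, r, h0, h1, fun n d hd => ?_⟩
    refine le_trans (cardle _ _ _ _ id Function.injective_id fun w hw => ?_) 
      (plats k h unknot.D.fPoly n)
    obtain ⟨b, t, hw⟩ := hw
    refine ⟨b, t, nsep (plat k b t) w d ?_ hw⟩
    have h2 : (plat k b t).crossings.length = 0 := rfl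
    have h3 : Nat.card (plat k b t).P = 4 * k := by
      have : (plat k b t).P = (Bool × Fin (2 * k)) := rfl
      rw [this, Nat.card_eq_fintype_card]
      simp
      ring
    rw [h2, h3]
    have h4 : 2 * (2 * k) + 1 = 4 * k + 1 := by ring
    rw [h4]
    omega

end Pool.Agent.Results.MP_5f6b43_gt.RandomBraidWords
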