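import Pool.Agent.W642.RV.Vas
import Pool.Agent.W320.RV.Closed
import Pool.Agent.W337.RV.FPoly
import Pool.Agent.W902.RS.Exist

/-!
# Vassiliev invariants of order two detect random knots

Definitions of the starting library: `GaussWord N` (the order in which the crossings of a knot diagram
with `N` crossings are passed), `Crosses G i j` (the chords of the crossings `i` and `j` cross),
`IsMatching`, `classes G` (`Pool.Agent.H832R2.JR.Defs`); `Dia` (an oriented link diagram with the
finite set of its marked points), `Dia.IsLink`, `Separated d X Y` (some integer valued Vassiliev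
invariant of order at most `d` has different values on `X` and `Y`; `Pool.Agent.H832R3.VJ.Defs`).

`Pool.Agent.W642.RS.Defs`: `Stack N n` (the Gauss word of a closed curve which is divided into `n`
consecutive arcs without self-crossings, any two of which cross at most once), `EdgesCross r i j`,
`IsPolygon r D` (the stack `D` describes the closed polygon with the vertices `r 0, …, r (n - 1)`,
numbers of points on a circle).  `Pool.Agent.W642.RV.Defs`: `dia G e w` (the knot diagram with Gauss
word `G`, local pictures `e` of the crossings and signs `w` of the crossings), `stackDia D h` (the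
diagram of the stack `D` with the arc `i` at height `h i`).
-/

set_option autoImplicit false

namespace Pool.Agent.Results.MP_5f6b43_gt.RandomStacking

open Finset Pool.Agent.H832R2.JR Pool.Agent.H832R3.VJ Pool.Agent.W642.RS Pool.Agent.W642.RV

open Classical in
/-- For `N > 0` all diagrams `dia G e w` are diagrams of links.  Let `Y` be any diagram, for instance
the diagram of the unknot.

* (random crossings) If the shadow `G` of a knot diagram with `N` crossings has `m` pairwise disjoint
  pairs of crossing chords, or `t` classes of chords, then the proportion `P` of the `2 ^ N` choices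
  of the crossings for which the knot is not separated from `Y` by Vassiliev invariants of order at
  most `2` satisfies `m P⁴ ≤ 32` and `t P⁴ ≤ 320`.
* (random stacking) There is an absolute constant `C` such that: if a closed curve with `N` crossings
  consists of `n` arcs, any two of which cross at most once, and the arcs are put at the heights
  `1, …, n` in a random order, then the probability `P` that the knot is not separated from `Y` by
  Vassiliev invariants of order at most `2` satisfies `N ³ P⁴ ≤ C n⁵`.
* (random arc presentations, that is, grid diagrams) Every closed polygon with vertices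
  `r 0, …, r (n - 1)` on a circle is described by stacks.  If the permutation `r` and the order of
  the heights of the `n` edges are chosen at random, then the probability that the knot is not
  separated from `Y` by Vassiliev invariants of order at most `2` is at most `C n ^ (-1/4)`. -/
theorem result :
    (∀ (N : ℕ) (G : GaussWord N) (e w : Fin N → Bool), 0 < N → (dia G e w).IsLink) ∧
    (∀ (N : ℕ) (G : GaussWord N) (e : Fin N → Bool) (Y : Dia),
      (∀ (m : ℕ) (u v : Fin m → Fin N), IsMatching G u v →
        m * (univ.filter fun w : Fin N → Bool => ¬ Separated 2 (dia G e w) Y).card ^ 4 ≤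
          32 * (2 ^ N) ^ 4) ∧
      classes G * (univ.filter fun w : Fin N → Bool => ¬ Separated 2 (dia G e w) Y).card ^ 4 ≤
        320 * (2 ^ N) ^ 4) ∧
    (∃ C : ℝ, 0 < C ∧ ∀ (N n : ℕ) (D : Stack N n) (Y : Dia),
      (N : ℝ) ^ 3 * ((univ.filter fun h : Equiv.Perm (Fin n) =>
        ¬ Separated 2 (stackDia D h) Y).card : ℝ) ^ 4 ≤
          C * (n : ℝ) ^ 5 * (n.factorial : ℝ) ^ 4) ∧
    (∀ (n : ℕ) (r : Equiv.Perm (Fin n)), ∃ (N : ℕ) (D : Stack N n), IsPolygon r D) ∧
    (∃ C : ℝ, 0 < C ∧ ∀ (n : ℕ) (N : Equiv.Perm (Fin n) → ℕ)
      (D : ∀ r : Equiv.Perm (Fin n), Stack (N r) n), (∀ r, IsPolygon r (D r)) → ∀ Y : Dia,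
      (n : ℝ) ^ (1 / 4 : ℝ) * ((univ.filter fun x : Equiv.Perm (Fin n) × Equiv.Perm (Fin n) =>
        ¬ Separated 2 (stackDia (D x.1) x.2) Y).card : ℝ) ≤ C * (n.factorial : ℝ) ^ 2) :=
  ⟨fun _ G e w hN => isLink Pool.Agent.W320.RV.closed hN G e w,
    fixed_sep Pool.Agent.W337.RV.fpoly, stack_sep Pool.Agent.W337.RV.fpoly,
    Pool.Agent.W902.RS.exist, arc_sep Pool.Agent.W337.RV.fpoly⟩

end Pool.Agent.Results.MP_5f6b43_gt.RandomStacking
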